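import Pool.Agent.H37.CNZ.Stmts
import Pool.Agent.H37.CNY.Stmts2

/-!
# Denominators of conductors: no tame covers of the affine line; refined divisor theorem; direct products;
elements of order `p`.  Statements of the rows of the board `cns`

Row `XXX` is a theorem `xxx_thm (h1 : S_AAA) ... : S_XXX` in `Pool/Agent/H<k>/CNS/XXX.lean`, importing this
file, namespace `Pool.CND`.
-/

set_option autoImplicit false

namespace Pool.CND

open Finset Matrix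

/-- `G` is the group of a cover -/
def HasCover (k G : Type) [Field k] [Group G] : Prop :=
  ∃ (L : Type) (_ : Field L) (_ : Algebra k L) (ρ : G →* (L ≃ₐ[k] L)) (t : L), IsCover ρ t

/-! ## No tame covers.  `D = d / dt` on `L`; `O` = regular elements; `O = k[t]` by induction on the order of the pole -/

/-- LEX: expansion in powers of a uniformiser (coefficients from `residue`, `EXP`) -/
def S_LEX : Prop := ∀ (k L : Type) [Field k] [Field L] [Algebra k L] (P : Place k L) (u : L),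
  u ≠ 0 → P.ord u = 1 → ∃ φ : L →ₐ[k] LaurentSeries k, φ u = HahnSeries.single 1 1 ∧
    ∀ x : L, x ≠ 0 → (φ x).order = P.ord x

/-- DLS: the derivation of the field of Laurent series -/
def S_DLS : Prop := ∀ (p : ℕ) (k : Type) [Field k], p.Prime → CharP k p →
  ∃ δ : Derivation k (LaurentSeries k) (LaurentSeries k), δ (HahnSeries.single 1 1) = 1 ∧
    (∀ x, x ≠ 0 → δ x = 0 ∨ x.order - 1 ≤ (δ x).order) ∧
    (∀ x, x ≠ 0 → (p : ℤ) ∣ x.order → δ x = 0 ∨ x.order ≤ (δ x).order) ∧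
    (∀ x, x ≠ 0 → ¬ (p : ℤ) ∣ x.order → δ x ≠ 0 ∧ (δ x).order = x.order - 1)

/-- DER: the derivation `d / dt` of `L` (`L / k(t)` is finite separable, so `L = L ^ p (t)`, `1, t, ..., t ^ (p - 1)` are independent over
`L ^ p`) -/
def S_DER : Prop := ∀ (p : ℕ) (k L G : Type) [Field k] [IsAlgClosed k] [Field L] [Algebra k L]
  [Group G] [Finite G] (ρ : G →* (L ≃ₐ[k] L)) (t : L), p.Prime → CharP k p → IsCover ρ t →
  ∃ D : Derivation k L L, D t = 1 ∧ (∀ y : L, D y = 0 → ∃ w : L, y = w ^ p) ∧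
    ∀ y : L, (⇑D)^[p] y = 0

/-- DES: its estimates, from `LEX`, `DLS`: `φ ∘ D` and `(δ (φ t))⁻¹ δ ∘ φ` agree on `k(t)`, so on `L` (separable) -/
def S_DES : Prop := ∀ (p : ℕ) (k L G : Type) [Field k] [IsAlgClosed k] [Field L] [Algebra k L]
  [Group G] [Finite G] (ρ : G →* (L ≃ₐ[k] L)) (t : L) (D : Derivation k L L) (P : Place k L),
  p.Prime → CharP k p → IsCover ρ t → D t = 1 →
  (∀ a : k, P.ord (t - algebraMap k L a) = 1 → ∀ y : L, y ≠ 0 → 0 ≤ P.ord y →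
    D y = 0 ∨ 0 ≤ P.ord (D y)) ∧
  (¬ (p : ℤ) ∣ P.ord t → ∀ y : L, y ≠ 0 → D y = 0 ∨ P.ord y - P.ord t ≤ P.ord (D y))

/-- FUN: finite places are unramified (`RMX` for `N = ⊤`, `J = ⊥`: an element of `k(t)` of order `1`) -/
def S_FUN : Prop := ∀ (k L G : Type) [Field k] [IsAlgClosed k] [Field L] [Algebra k L]
  [Group G] [Finite G] (ρ : G →* (L ≃ₐ[k] L)) (t : L) (P : Place k L), IsCover ρ t →
  0 ≤ P.ord t → ∃ a : k, P.ord (t - algebraMap k L a) = 1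

/-- INF: the order of `t` at infinity (`RMX` for `N = ⊤`, `TOT`; orders on `k(t)` are multiples of `ord t`) -/
def S_INF : Prop := ∀ (k L G : Type) [Field k] [IsAlgClosed k] [Field L] [Algebra k L]
  [Group G] [Finite G] (ρ : G →* (L ≃ₐ[k] L)) (t : L) (P : Place k L) (I : Subgroup G),
  IsCover ρ t → P.ord t < 0 → (I : Set G) = ram P ρ 0 → P.ord t = -(Nat.card I : ℤ)

/-- REG: an element without poles is constant: the coefficients of `∏ (X - g y)` are in `k(t)` without poles (`EXI` for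
`x = 1 / (t - a)`, `x = t`), so constant -/
def S_REG : Prop := ∀ (k L G : Type) [Field k] [IsAlgClosed k] [Field L] [Algebra k L]
  [Group G] [Finite G] (ρ : G →* (L ≃ₐ[k] L)) (t y : L), IsCover ρ t →
  (∀ P : Place k L, y = 0 ∨ 0 ≤ P.ord y) → ∃ c : k, y = algebraMap k L c

/-- FRC: every element is a quotient of a regular one by a polynomial in `t` -/
def S_FRC : Prop := ∀ (k L G : Type) [Field k] [IsAlgClosed k] [Field L] [Algebra k L]
  [Group G] [Finite G] (ρ : G →* (L ≃ₐ[k] L)) (t y : L), IsCover ρ t →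
  ∃ q : Polynomial k, q ≠ 0 ∧ Reg k t (Polynomial.aeval t q * y)

/-- TAC: a cover which is tame at infinity is trivial.  `e = - P.ord t = |ram 0|`, prime to `p` (`INF`, `WLD`), the same at all
places at infinity (`TRV`).  Claim, by strong induction on `N`: if `y` is regular and `- ord y ≤ N` at all places at infinity
then `y ∈ k[t]`.  `N = 0`: `REG`.  `D y` is regular (`FUN`, `DES`) with `- ord ≤ N - e` at infinity, so `D y = q'(t)` (`D y = 0` if `N < e`,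
by `REG`), and `D ^ (p - 1)` kills it, so `D y = D (q(t))` with `e deg q ≤ N`; `y - q(t) = w ^ p`, `w` regular, `- ord w ≤ N / p < N`.
So `L = k(t)` (`FRC`) -/
def S_TAC : Prop := ∀ (p : ℕ) (k L G : Type) [Field k] [IsAlgClosed k] [Field L] [Algebra k L]
  [Group G] [Finite G] (ρ : G →* (L ≃ₐ[k] L)) (t : L) (P : Place k L), p.Prime → CharP k p →
  IsCover ρ t → P.ord t < 0 → ram P ρ 1 = {1} → ∀ g : G, g = 1

/-- NCL: the wild inertia groups generate `G`: the quotient by `N` (`QU1`) is tame at infinity (its inertia group is the image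
of `ram P ρ 0` (`TRV`), of order prime to `p` (`WLD`)), so trivial by `TAC` -/
def S_NCL : Prop := ∀ (p : ℕ) (k L G : Type) [Field k] [IsAlgClosed k] [Field L] [Algebra k L]
  [Group G] [Finite G] (ρ : G →* (L ≃ₐ[k] L)) (t : L) (P : Place k L) (N : Subgroup G),
  p.Prime → CharP k p → IsCover ρ t → P.ord t < 0 → N.Normal → ram P ρ 1 ⊆ (N : Set G) → N = ⊤

/-- PTR: covers of `p`-groups are totally ramified (`NCL`, `MAX`) -/
def S_PTR : Prop := ∀ (p : ℕ) (k L G : Type) [Field k] [IsAlgClosed k] [Field L] [Algebra k L]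
  [Group G] [Finite G] (ρ : G →* (L ≃ₐ[k] L)) (t : L) (P : Place k L), p.Prime → CharP k p →
  (∃ n : ℕ, Nat.card G = p ^ n) → IsCover ρ t → P.ord t < 0 → ram P ρ 1 = Set.univ

/-- GDV: the refined divisor theorem, only for the `p`-subgroups `W` which generate `G` with their conjugates: `YLO` (tame part:
`den`, as in `DVW`), `NCL`, `INC` (for `W`, `z ∈ C`), `CON`, `NGD` -/
def S_GDV : Prop := ∀ (p : ℕ) (k G : Type) [Field k] [IsAlgClosed k] [Group G] [Finite G]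
  (a r : ℕ), p.Prime → CharP k p → 1 ≤ r →
  (∀ W : Subgroup G, (∃ n : ℕ, Nat.card W = p ^ n) → Subgroup.normalClosure (W : Set G) = ⊤ →
    (∀ z ∈ W, z ≠ 1 → z ^ p = 1 → (∀ w ∈ W, w * z = z * w) → ∃ (H : Subgroup G) (d : ℕ),
      H ≤ W ∧ z ∈ H ∧ z ∉ ⁅H, H⁆ ∧ d ≤ a ∧ Nat.card W = p ^ d * Nat.card H) ∧
    (∀ (g : G) (C : Subgroup G), ¬ p ∣ orderOf g → (∀ w ∈ W, g * w * g⁻¹ ∈ W) → C ≤ W → C ≠ ⊥ →
      EA p C → (∀ w ∈ W, ∀ x ∈ C, w * x = x * w) → (∀ x ∈ C, g * x * g⁻¹ ∈ C) → YS g C →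
      ∀ x ∈ C, g ^ r * x = x * g ^ r)) →
  (∀ c ∈ Cond k G, ∃ y : ℤ, ((p ^ a * r : ℕ) : ℚ) * c = y) ∧ NG k G ∣ p ^ a * r

/-- ZUC: upper bound for `p`-groups, central `z` only: from `GDV` -/
def S_ZUC : Prop := ∀ (p q : ℕ) (k G : Type) [Field k] [IsAlgClosed k] [CharP k p] [Group G]
  [Finite G], p.Prime → (∃ a : ℕ, Nat.card G = p ^ a) → (∃ a : ℕ, 1 ≤ a ∧ q = p ^ a) →
  (∀ z ∈ Subgroup.center G, z ^ p = 1 → z ≠ 1 → ∃ H : Subgroup G, z ∈ H ∧ z ∉ ⁅H, H⁆ ∧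
    H.index ∣ q) → NG k G ∣ q

/-! ## Quotients and direct products -/

/-- QCG: `QCC` for all finite groups, `c ≠ 0`.  `N = ker π ∩ ram 0`, `N_W = N ∩ ram 1`; `P₁` has inertia group the image of
`ram P ρ 0`; `e = |N|`; for `w ∈ ram 1` not in `N`: `|N| P₁.b (π w) = ∑_{n ∈ N_W} b (w n)` (`HER` for `N`: `b = 0` on tame elements; or `HER`
for `N_W` and then `LO2` for the tame step as in `QU2`); then as in `QCC` -/
def S_QCG : Prop := ∀ (p : ℕ) (k L L₁ G G₁ : Type) [Field k] [Field L] [Field L₁] [Algebra k L]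
  [Algebra k L₁] [Group G] [Group G₁] [Finite G] [Finite G₁] (ρ : G →* (L ≃ₐ[k] L))
  (ρ₁ : G₁ →* (L₁ ≃ₐ[k] L₁)) (π : G →* G₁) (j : L₁ →ₐ[k] L) (t₁ : L₁) (P : Place k L) (c : ℚ),
  p.Prime → CharP k p → IsCover ρ (j t₁) → IsCover ρ₁ t₁ → Quo ρ ρ₁ π j → IsConductor P ρ c →
  c ≠ 0 →
  ∃ (P₁ : Place k L₁) (e : ℕ), 1 ≤ e ∧ (∀ z : L₁, z ≠ 0 → (e : ℤ) * P₁.ord z = P.ord (j z)) ∧
    (∀ c₁ : ℚ, IsConductor P₁ ρ₁ c₁ → c₁ ≤ c) ∧
    ∀ l : ℕ, ram P ρ (l + 1) = {1} → (∃ g ∈ ram P ρ l, π g ≠ 1) → IsConductor P₁ ρ₁ c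

/-- LBQ: lower bound for the conductor of a quotient: `u` a uniformiser of `P₁`, `w ∈ ram P ρ 1` acting nontrivially (image of
`ram P ρ 1` is `ram P₁ ρ₁ 1`), in the last group of `P₁`: `P.ord (w (j u) - j u) ≥ e + m` (`LON`), so `P₁.b ≥ m / e`; `c₁ ≥ P₁.b / |G₁|`,
`e ≤ - P.ord (j t₁) ≤ |G|` (`INF`) -/
def S_LBQ : Prop := ∀ (p : ℕ) (k L L₁ G G₁ : Type) [Field k] [IsAlgClosed k] [Field L] [Field L₁]
  [Algebra k L] [Algebra k L₁] [Group G] [Group G₁] [Finite G] [Finite G₁]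
  (ρ : G →* (L ≃ₐ[k] L)) (ρ₁ : G₁ →* (L₁ ≃ₐ[k] L₁)) (π : G →* G₁) (j : L₁ →ₐ[k] L) (t₁ : L₁)
  (P : Place k L) (P₁ : Place k L₁) (e m : ℕ) (c₁ : ℚ), p.Prime → CharP k p →
  IsCover ρ (j t₁) → IsCover ρ₁ t₁ → Quo ρ ρ₁ π j → P.ord (j t₁) < 0 → 1 ≤ e →
  (∀ z : L₁, z ≠ 0 → (e : ℤ) * P₁.ord z = P.ord (j z)) →
  (∀ g ∈ ram P ρ 1, g ≠ 1 → (m : ℤ) ≤ P.b (ρ g)) → IsConductor P₁ ρ₁ c₁ → c₁ ≠ 0 →
  (m : ℚ) ≤ c₁ * (Nat.card G : ℚ) ^ 2

/-- PUB: pull back by `s ^ m = t`, as `PUL`, with `b ≥ m` on `ram 1` (in `PU4`: `P'.b = m P.b`) -/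
def S_PUB : Prop := ∀ (p : ℕ) (k L G : Type) [Field k] [Field L] [Algebra k L] [Group G]
  [Finite G] (ρ : G →* (L ≃ₐ[k] L)) (t : L) (P : Place k L) (c : ℚ) (m : ℕ), p.Prime →
  CharP k p → 1 ≤ m → ¬ p ∣ m → Nat.Coprime m (Nat.card G) → IsCover ρ t → P.ord t < 0 →
  IsConductor P ρ c →
  ∃ (L' : Type) (_ : Field L') (_ : Algebra k L') (ρ' : G →* (L' ≃ₐ[k] L')) (s : L')
    (P' : Place k L'), IsCover ρ' s ∧ P'.ord s < 0 ∧ IsConductor P' ρ' (m * c) ∧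
    ∀ g ∈ ram P' ρ' 1, g ≠ 1 → (m : ℤ) ≤ P'.b (ρ' g)

/-- PRL: `L₁` a cover for `G` with conductor `c`, pulled back (`PUB`), `m > c₂ |G| ^ 2`; `L₂` a cover for `H` with conductor `c₂` (if `H` is not
trivial: `TAC`, `CNV`); compositum (`CMA`, `CMU` with `A = X`, `x = t`, `ι = 0`), group `Γ ≤ G × H`.  `Γ = ⊤`: else `N = {g : (g, 1) ∈ Γ}` is a proper normal
subgroup of `G`, the fixed field `M` of `N` in `L₁` (`QU1`) is a cover for `G / N`, also a quotient of `L₂` (it is fixed by the `(g, 1)`), so its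
conductor is at most `c₂` (`QCG`, `CJC`), not `0` (`TAC`), at least `m / |G| ^ 2` (`LBQ`).  The conductor of the compositum is `max (m c) c₂ = m c`
(`QCG` for both projections, the last group maps nontrivially to `G` or to `H`) -/
def S_PRL : Prop := ∀ (p : ℕ) (k G H : Type) [Field k] [IsAlgClosed k] [Group G] [Finite G]
  [Group H] [Finite H] (c : ℚ), p.Prime → CharP k p → c ∈ Cond k G → c ≠ 0 → HasCover k H →
  ∃ m : ℕ, 1 ≤ m ∧ Nat.Coprime m (p * Nat.card G * Nat.card H) ∧ ((m : ℚ) * c) ∈ Cond k (G × H)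

/-- PRU: normal subgroups with trivial intersection: the last ramification group is not in both; `QU1`, `QCG` -/
def S_PRU : Prop := ∀ (p : ℕ) (k G : Type) [Field k] [IsAlgClosed k] [Group G] [Finite G]
  (N₁ N₂ : Subgroup G) [N₁.Normal] [N₂.Normal] (c : ℚ), p.Prime → CharP k p → N₁ ⊓ N₂ = ⊥ →
  c ∈ Cond k G → c ≠ 0 → c ∈ Cond k (G ⧸ N₁) ∨ c ∈ Cond k (G ⧸ N₂)

/-- PRD: direct products: from `PRL`, `PRU`, `ALL`, `UPA` (`|G| c ∈ ℤ`), `NGD`, `CNG` (`c = 0` is harmless) -/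
def S_PRD : Prop := ∀ (p : ℕ) (k G H : Type) [Field k] [IsAlgClosed k] [Group G] [Finite G]
  [Group H] [Finite H], p.Prime → CharP k p → HasCover k G → HasCover k H →
  NG k (G × H) = Nat.lcm (NG k G) (NG k H)

/-! ## Elements of order `p` which are not central, `p` odd -/

/-- OM1: if all normal elementary abelian subgroups are central then all elements of order `p` are central.  `E` maximal normal
elementary abelian, central; so (a) `[x, G] ⊆ E`, `x ^ p = 1` imply `x ∈ E` (`E⟨x⟩` is normal elementary abelian).  `R_0 = E`,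
`R_(i+1) = {w : [w, G] ⊆ R_i, w ^ p ∈ R_i}`, `R_(-1) = 1`; the union is `G`.  Claim: `w ∈ R_i`, `w ^ p ∈ R_(i-2)` imply `w ∈ R_(i-1)`, `i ≥ 1`.  `i = 1`: (a).
`i ≥ 2`: for `g ∈ G`, `s = [w, g] ∈ R_(i-1)`, `w s = w ^ g`, `(w s) ^ p = (w ^ p) ^ g = w ^ p` modulo `R_(i-3)`; modulo `R_(i-3)` the commutator `[w, s] ∈ R_(i-2)` is
central of order `p`, so `(w s) ^ p = w ^ p s ^ p`; so `s ^ p ∈ R_(i-3)`, `s ∈ R_(i-2)` by induction; so `w ∈ R_(i-1)`.  An `x` with `x ^ p = 1` is in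
some `R_i`, so in `R_(i-1)`, ..., in `E` -/
def S_OM1 : Prop := ∀ (p : ℕ) (G : Type) [Group G] [Finite G], p.Prime → p ≠ 2 →
  (∃ n : ℕ, Nat.card G = p ^ n) → ∀ x : G, x ^ p = 1 → x ∉ Subgroup.center G →
  ∃ E : Subgroup G, E.Normal ∧ EA p E ∧ ¬ E ≤ Subgroup.center G

/-- OM2: `a ∈ E` not central with `[a, G] ⊆ Z(G) ∩ E` (`E` modulo its central part meets the centre); `F' = [a, G]`, elementary abelian of
order `p ^ r`, is the image of a homomorphism; `κ s c = a ^ s φ(c)`, `φ : F_p ^ r ≃ F'` -/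
def S_OM2 : Prop := ∀ (p : ℕ) (G : Type) [Group G] [Finite G] [Fact p.Prime] (E : Subgroup G),
  (∃ n : ℕ, Nat.card G = p ^ n) → E.Normal → EA p E → ¬ E ≤ Subgroup.center G →
  ∃ (r : ℕ) (κ : (Fin 1 → ZMod p) → (Fin r → ZMod p) → G)
    (β : G → Matrix (Fin r) (Fin 1) (ZMod p)), 1 ≤ r ∧
    (∀ a a' c c', κ (a + a') (c + c') = κ a c * κ a' c') ∧ (∀ a c, κ a c = 1 → a = 0 ∧ c = 0) ∧
    (∀ g h : G, β (g * h) = β g + β h) ∧ Function.Surjective β ∧
    ∀ g a c, g * κ a c * g⁻¹ = κ a (c + β g *ᵥ a)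

/-- OM3: from `OM1`, `OM2`, `ZHF` -/
def S_OM3 : Prop := ∀ (p : ℕ) (k G : Type) [Field k] [IsAlgClosed k] [CharP k p] [Group G]
  [Finite G], p.Prime → p ≠ 2 → (∃ n : ℕ, Nat.card G = p ^ n) → ∀ x : G, x ^ p = 1 →
  x ∉ Subgroup.center G → p ∣ NG k G

/-! ## The converse when `G / Z(G)` is elementary abelian -/

/-- ASG: Artin-Schreier generator for `y : G → F_p`: `Y = - ∑_h y(h) h θ`, `θ` from `TRS`; `Y ^ p - Y` is a regular element of `k(t)`; reduce by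
`XRD` -/
def S_ASG : Prop := ∀ (p : ℕ) (k L G : Type) [Field k] [IsAlgClosed k] [CharP k p] [Field L]
  [Algebra k L] [Group G] [Finite G] (ρ : G →* (L ≃ₐ[k] L)) (t : L) (y : G → ZMod p), p.Prime →
  IsCover ρ t → (∀ g h : G, y (g * h) = y g + y h) →
  ∃ (Y : L) (f : Polynomial k), Y ^ p - Y = Polynomial.aeval t f ∧
    (∀ g : G, ρ g Y = Y + algebraMap k L (fp k (y g))) ∧
    (((∀ g : G, y g = 0) ∧ Y = 0 ∧ f = 0) ∨
      ((∃ g : G, y g ≠ 0) ∧ 1 ≤ f.natDegree ∧ ¬ p ∣ f.natDegree))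

/-- ASD: `deg f` is the conductor of the quotient by the kernel `N` of `y`: `B = deg f` off `N` (`HBX`, `PTR`), `UQM`, `UQT`, `CON`, `CUQ` -/
def S_ASD : Prop := ∀ (p : ℕ) (k L G : Type) [Field k] [IsAlgClosed k] [CharP k p] [Field L]
  [Algebra k L] [Group G] [Finite G] (ρ : G →* (L ≃ₐ[k] L)) (t : L) (P : Place k L) (c : ℚ)
  (y : G → ZMod p) (Y : L) (f : Polynomial k), p.Prime → (∃ n : ℕ, Nat.card G = p ^ n) →
  IsCover ρ t → P.ord t < 0 → IsConductor P ρ c → (∀ g h : G, y (g * h) = y g + y h) →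
  Y ^ p - Y = Polynomial.aeval t f → (∀ g : G, ρ g Y = Y + algebraMap k L (fp k (y g))) →
  (∃ g : G, y g ≠ 0) → 1 ≤ f.natDegree → ¬ p ∣ f.natDegree →
  (f.natDegree : ℚ) ≤ c ∧
    ∀ l : ℕ, ram P ρ (l + 1) = {1} → (∃ g ∈ ram P ρ l, y g ≠ 0) → c = f.natDegree

/-- TWG: the central extension with the bilinear cocycle `β` (pairs `(g, c)`) -/
def S_TWG : Prop := ∀ (p : ℕ) (G : Type) [Group G] [Finite G] (β : G → G → ZMod p), p.Prime →
  (∀ a b c : G, β (a * b) c = β a c + β b c) → (∀ a b c : G, β a (b * c) = β a b + β a c) →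
  ∃ (G' : Type) (_ : Group G') (_ : Finite G') (π : G' →* G) (z : G') (γ : G' → ZMod p),
    Function.Surjective π ∧ (∀ a : G', π a = 1 ↔ a ∈ Subgroup.zpowers z) ∧ orderOf z = p ∧
    (∀ a : G', a * z = z * a) ∧ γ z = 1 ∧
    (∀ a b : G', γ (a * b) = γ a + γ b + β (π a) (π b)) ∧
    (∀ a : G', π a = 1 → γ a = 0 → a = 1) ∧
    (∀ (g : G) (c : ZMod p), ∃ a : G', π a = g ∧ γ a = c) ∧ Nat.card G' = p * Nat.card G

/-- the data of the twisted cover -/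
structure TWD (p m : ℕ) {k L G G' : Type} [Field k] [CharP k p] [Field L] [Algebra k L] [Group G]
    [Group G'] (ρ : G →* (L ≃ₐ[k] L)) (t : L) (x y : Fin m → G → ZMod p) (X Y : Fin m → L)
    (f h : Fin m → Polynomial k) (π : G' →* G) (z : G') (γ : G' → ZMod p) : Prop where
  cov : IsCover ρ t
  x_mul : ∀ (i : Fin m) (g g' : G), x i (g * g') = x i g + x i g'
  y_mul : ∀ (i : Fin m) (g g' : G), y i (g * g') = y i g + y i g'
  X_eq : ∀ i, X i ^ p - X i = Polynomial.aeval t (f i)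
  Y_eq : ∀ i, Y i ^ p - Y i = Polynomial.aeval t (h i)
  X_act : ∀ (i : Fin m) (g : G), ρ g (X i) = X i + algebraMap k L (fp k (x i g))
  Y_act : ∀ (i : Fin m) (g : G), ρ g (Y i) = Y i + algebraMap k L (fp k (y i g))
  surj : Function.Surjective π
  ker : ∀ a : G', π a = 1 ↔ a ∈ Subgroup.zpowers z
  order : orderOf z = p
  central : ∀ a : G', a * z = z * a
  γ_z : γ z = 1
  γ_mul : ∀ a b : G', γ (a * b) = γ a + γ b + ∑ i, x i (π a) * y i (π b)

/-- TWC: the twisted cover: `CGA`, `CUN` with `b a = ∑ y_i(π a) X_i + γ a`, `r = ∑ Y_i f_i(t) + α t`, `α` such that `r` is not `u ^ p - u` (as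
`CIR`: finitely many homomorphisms, infinitely many `α`) -/
def S_TWC : Prop := ∀ (p m : ℕ) (k L G G' : Type) [Field k] [IsAlgClosed k] [CharP k p] [Field L]
  [Algebra k L] [Group G] [Finite G] [Group G'] [Finite G'] (ρ : G →* (L ≃ₐ[k] L)) (t : L)
  (x y : Fin m → G → ZMod p) (X Y : Fin m → L) (f h : Fin m → Polynomial k) (π : G' →* G)
  (z : G') (γ : G' → ZMod p), p.Prime → TWD p m ρ t x y X Y f h π z γ →
  ∃ (L' : Type) (_ : Field L') (_ : Algebra k L') (ρ' : G' →* (L' ≃ₐ[k] L')) (j : L →ₐ[k] L')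
    (Z : L') (α : k), IsCover ρ' (j t) ∧ Quo ρ' ρ π j ∧
    Z ^ p - Z = j (∑ i, Y i * Polynomial.aeval t (f i) + algebraMap k L α * t) ∧
    ∀ a : G', ρ' a Z = Z + j (∑ i, algebraMap k L (fp k (y i (π a))) * X i) +
      algebraMap k L' (fp k (γ a))

/-- TWB: bound for the conductor if the last group is not in `R = {γ = 0, x_i = y_i = 0}`.  `S = {x_i = y_i = 0}`, `e = |G'| = - ord t` (`PTR`, `INF`).
If the last group is not in `S`: `c ≤ A` (`ASD` for the reduced polynomial).  Otherwise it has `v` with `γ v ≠ 0`.  (1) `∑_{a ∉ S} b a ≤ e A`: the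
numbers `B` of the elementary abelian group `G' / S` have `U ≤ A` (its conductor is that of one of its quotients of order `p`).  (2) `|R| B(s) ≤ - ord Z`
for `s ∈ S`, `s ∉ R` (`HER`, `LON` on the fixed field of `R`, where `s Z - Z` is a nonzero constant), `- p ord Z ≤ e (A + A / p)`; `c e = l + ∑_{r ∈ R} b r +
∑_{s ∈ S, s ∉ R} b s + ∑_{a ∉ S} b a ≤ p |R| B(v) + e A` (`UQT`: `|R| B(v) = l + ∑_{r ∈ R} b r`, the largest) -/
def S_TWB : Prop := ∀ (p m A : ℕ) (k L L' G G' : Type) [Field k] [IsAlgClosed k] [CharP k p]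
  [Field L] [Algebra k L] [Field L'] [Algebra k L'] [Group G] [Finite G] [Group G'] [Finite G']
  (ρ : G →* (L ≃ₐ[k] L)) (t : L) (x y : Fin m → G → ZMod p) (X Y : Fin m → L)
  (f h : Fin m → Polynomial k) (π : G' →* G) (z : G') (γ : G' → ZMod p)
  (ρ' : G' →* (L' ≃ₐ[k] L')) (j : L →ₐ[k] L') (Z : L') (α : k) (P' : Place k L') (c : ℚ),
  p.Prime → (∃ n : ℕ, Nat.card G' = p ^ n) → TWD p m ρ t x y X Y f h π z γ →
  IsCover ρ' (j t) → Quo ρ' ρ π j →
  Z ^ p - Z = j (∑ i, Y i * Polynomial.aeval t (f i) + algebraMap k L α * t) →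
  (∀ a : G', ρ' a Z = Z + j (∑ i, algebraMap k L (fp k (y i (π a))) * X i) +
    algebraMap k L' (fp k (γ a))) → 1 ≤ A →
  (∀ i, (f i).natDegree ≤ A ∧ (h i).natDegree ≤ A) → P'.ord (j t) < 0 → IsConductor P' ρ' c →
  ∀ l : ℕ, ram P' ρ' (l + 1) = {1} →
    (∃ a ∈ ram P' ρ' l, ¬ (γ a = 0 ∧ ∀ i, x i (π a) = 0 ∧ y i (π a) = 0)) →
  (p : ℚ) * c ≤ (2 * p + 1) * A

/-- TRB: the trace in characteristic `p` is `(γ - 1) ^ (p - 1)` -/
def S_TRB : Prop := ∀ (p : ℕ) (k L : Type) [Field k] [Field L] [Algebra k L] (P : Place k L)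
  (γ : L ≃ₐ[k] L) (w : L), p.Prime → CharP k p → Fixes P γ → orderOf γ = p → 1 ≤ P.b γ →
  ∑ j ∈ range p, (γ ^ j) w = 1 → P.ord w ≤ -((p : ℤ) - 1) * P.b γ

/-- CY2: cyclic of order `p ^ 2`.  `Y` with `γ ^ p Y = Y + 1` and the largest order; this order is prime to `p` (else subtract an element fixed by
`γ ^ p`), so it is `- b(γ ^ p)` (`LO2`); `w = γ Y - Y` is in the fixed field `F` of `γ ^ p`, of trace `1`: `TRB` on `F` (`FXP`, `RST`, `HER`: `b = b(γ)`), `LON` -/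
def S_CY2 : Prop := ∀ (p : ℕ) (k L : Type) [Field k] [Field L] [Algebra k L] (P : Place k L)
  (γ : L ≃ₐ[k] L), p.Prime → CharP k p → Fixes P γ → orderOf γ = p ^ 2 →
  ((p : ℤ) ^ 2 - p + 1) * P.b γ ≤ P.b (γ ^ p)

/-- CYU: cover of a group `G` with a normal subgroup `N` with cyclic quotient of order `p ^ 2`, `y` the character of order `p` of the quotient, of degree
`D`: the conductor is at least `p D` (`CY2`, `QU1`, `QCC`, `ASD` for the quotient: `U = (i_1 + (p - 1) i_0) / p`, `i_0 = D`) -/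
def S_CYU : Prop := ∀ (p : ℕ) (k L G : Type) [Field k] [IsAlgClosed k] [CharP k p] [Field L]
  [Algebra k L] [Group G] [Finite G] (ρ : G →* (L ≃ₐ[k] L)) (t : L) (P : Place k L) (c : ℚ)
  (y : G → ZMod p) (θ : G → ZMod (p ^ 2)) (Y : L) (f : Polynomial k), p.Prime →
  (∃ n : ℕ, Nat.card G = p ^ n) → IsCover ρ t → P.ord t < 0 → IsConductor P ρ c →
  (∀ g h : G, y (g * h) = y g + y h) → (∀ g h : G, θ (g * h) = θ g + θ h) →
  Function.Surjective θ → (∀ g : G, y g = 0 ↔ (p : ZMod (p ^ 2)) * θ g = 0) →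
  Y ^ p - Y = Polynomial.aeval t f → (∀ g : G, ρ g Y = Y + algebraMap k L (fp k (y g))) →
  1 ≤ f.natDegree → ¬ p ∣ f.natDegree → (p : ℚ) * f.natDegree ≤ c

/-- ALT: an alternating form is a sum of products of homomorphisms vanishing on its radical -/
def S_ALT : Prop := ∀ (p : ℕ) (G : Type) [Group G] [Finite G] (ω : G → G → ZMod p), p.Prime →
  (∀ a b c : G, ω (a * b) c = ω a c + ω b c) → (∀ a b c : G, ω a (b * c) = ω a b + ω a c) →
  (∀ a : G, ω a a = 0) → ∃ (m : ℕ) (x y : Fin m → G → ZMod p),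
    (∀ i g h, x i (g * h) = x i g + x i h) ∧ (∀ i g h, y i (g * h) = y i g + y i h) ∧
    (∀ i g, (∀ h : G, ω g h = 0) → x i g = 0 ∧ y i g = 0) ∧
    ∀ a b : G, ω a b = ∑ i, (x i b * y i a - x i a * y i b)

/-- VLF: the last group of a quotient is the image of the last group, `G` a `p`-group (`UQT`: `B` is largest exactly on the images) -/
def S_VLF : Prop := ∀ (p : ℕ) (k L L₁ G G₁ : Type) [Field k] [Field L] [Field L₁] [Algebra k L]
  [Algebra k L₁] [Group G] [Group G₁] [Finite G] [Finite G₁] (ρ : G →* (L ≃ₐ[k] L))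
  (ρ₁ : G₁ →* (L₁ ≃ₐ[k] L₁)) (π : G →* G₁) (j : L₁ →ₐ[k] L) (t₁ : L₁) (P : Place k L)
  (P₁ : Place k L₁) (e l l₁ : ℕ), p.Prime → CharP k p → (∃ n : ℕ, Nat.card G = p ^ n) →
  IsCover ρ (j t₁) → IsCover ρ₁ t₁ → Quo ρ ρ₁ π j → 1 ≤ e →
  (∀ z : L₁, z ≠ 0 → (e : ℤ) * P₁.ord z = P.ord (j z)) → ram P ρ (l + 1) = {1} →
  (∃ g ∈ ram P ρ l, π g ≠ 1) → ram P₁ ρ₁ (l₁ + 1) = {1} → ram P₁ ρ₁ l₁ ≠ {1} →
  ∀ v ∈ ram P₁ ρ₁ l₁, ∃ g ∈ ram P ρ l, π g = v

/-- `p`-groups with `G / Z(G)` elementary abelian and all elements of order `p` central -/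
structure PC (p : ℕ) (G : Type) [Group G] : Prop where
  card : ∃ n : ℕ, Nat.card G = p ^ n
  pow : ∀ g : G, g ^ p ∈ Subgroup.center G
  comm : ∀ g h : G, g * h * g⁻¹ * h⁻¹ ∈ Subgroup.center G
  om : ∀ x : G, x ^ p = 1 → x ∈ Subgroup.center G

/-- PZ5: group theory: for `y : G / Z(G) → F_p` there is `χ : Z(G) → F_p` with `χ(g ^ p) = y(g)` (`g ↦ g ^ p` is a homomorphism to `Z(G)`, injective from
`G / Z(G)` to `Z(G) / Z(G) ^ p`) -/
def S_PZ5 : Prop := ∀ (p : ℕ) (G : Type) [Group G] [Finite G] (y : G → ZMod p), p.Prime → p ≠ 2 →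
  PC p G → (∀ g h : G, y (g * h) = y g + y h) → (∀ g ∈ Subgroup.center G, y g = 0) →
  ∃ χ : G → ZMod p, (∀ g ∈ Subgroup.center G, ∀ h ∈ Subgroup.center G, χ (g * h) = χ g + χ h) ∧
    ∀ g : G, χ (g ^ p) = y g

/-- PZ6: the conductor is at least `p` times the degree of any `y : G / Z(G) → F_p`.  Take `y` with the largest degree `A`; `χ` from `PZ5`,
`ω(a, b) = χ([a, b])`; `ALT`, `TWG` (`β = ∑ x_i y_i`), `ASG`, `TWC`: cover for `G'`; `Ω(a) = χ(π a) + γ(a)` on `π⁻¹ Z(G)` vanishes on commutators, `Ω(a ^ p) = y(π a)`: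
it extends to `θ : G' → ℤ / p ^ 2` with `p θ = y π` (up to the inclusion of `F_p`), so `c' ≥ p A` for the conductor `c'` of the cover (`CYU`); by `TWB` (`(2 p + 1) A < p ^ 2 A`)
its last group is in `R`, `z ∉ R`, so `c = c'` (`QCC`, `CJC`, `CUQ`) -/
def S_PZ6 : Prop := ∀ (p : ℕ) (k L G : Type) [Field k] [IsAlgClosed k] [CharP k p] [Field L]
  [Algebra k L] [Group G] [Finite G] (ρ : G →* (L ≃ₐ[k] L)) (t : L) (P : Place k L) (c : ℚ)
  (y : G → ZMod p) (Y : L) (f : Polynomial k), p.Prime → p ≠ 2 → PC p G → IsCover ρ t →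
  P.ord t < 0 → IsConductor P ρ c → (∀ g h : G, y (g * h) = y g + y h) →
  (∀ g ∈ Subgroup.center G, y g = 0) → (∃ g : G, y g ≠ 0) → Y ^ p - Y = Polynomial.aeval t f →
  (∀ g : G, ρ g Y = Y + algebraMap k L (fp k (y g))) → 1 ≤ f.natDegree → ¬ p ∣ f.natDegree →
  (p : ℚ) * f.natDegree ≤ c

/-- PZ7: the conductor is an integer.  `v ≠ 1` in the last group.  `v ∉ ⁅G, G⁆` (or `G` abelian): `HAC` for `H = ⊤`.  Otherwise `χ : ⁅G, G⁆ → F_p` with `χ(v) ≠ 0`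
(`⁅G, G⁆` is elementary abelian), `ω(a, b) = χ([a, b])`, cover for `G'` as in `PZ6`, conductor `c' ≥ c ≥ p A` (`QCC`, `PZ6`; `A ≥ 1` the largest degree), so its last group
is in `R` (`TWB`), `c = c'`, `v` lifts to `v'` in the last group (`VLF`), `γ v' = 0`, `v' ∉ ⁅G', G'⁆` since `χ π + γ` is `0` there; `HAC` for `H = ⊤` in `G'` (`CON`) -/
def S_PZ7 : Prop := ∀ (p : ℕ) (k L G : Type) [Field k] [IsAlgClosed k] [CharP k p] [Field L]
  [Algebra k L] [Group G] [Finite G] (ρ : G →* (L ≃ₐ[k] L)) (t : L) (P : Place k L) (c : ℚ),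
  p.Prime → p ≠ 2 → PC p G → IsCover ρ t → P.ord t < 0 → IsConductor P ρ c → ∃ n : ℤ, c = n

/-- PZE: from `PZ7`, `OM3`, `NGD` -/
def S_PZE : Prop := ∀ (p : ℕ) (k G : Type) [Field k] [IsAlgClosed k] [CharP k p] [Group G]
  [Finite G], p.Prime → p ≠ 2 → (∃ n : ℕ, Nat.card G = p ^ n) →
  ((∃ x : G, x ^ p = 1 ∧ x ∉ Subgroup.center G) → p ∣ NG k G) ∧
  ((∀ g : G, g ^ p ∈ Subgroup.center G) → (∀ g h : G, g * h * g⁻¹ * h⁻¹ ∈ Subgroup.center G) →
    (NG k G = 1 ↔ ∀ x : G, x ^ p = 1 → x ∈ Subgroup.center G))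

end Pool.CND
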